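import Pool.Agent.Lib.MP_34a149_al.RG.All

/-!
The rank gradient depends on the chain: a finitely presented residually finite group of cost one
and first `L²`-Betti number zero with a normal chain of positive rank gradient.
-/

namespace Pool.Agent.Results.MP_34a149_al.ChainDependent

open Pool.Agent.Lib.MP_34a149_al Filter Topology

theorem result : ∃ (G : Type) (_ : Group G), Infinite G ∧ Group.ResiduallyFinite G ∧
    Group.IsFinitelyPresented G ∧ ∃ Γ Γ' : ℕ → Subgroup G,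
      ((∀ i, (Γ i).Normal ∧ (Γ i).FiniteIndex) ∧ Antitone Γ ∧ ⨅ i, Γ i = ⊥) ∧
      ((∀ i, (Γ' i).Normal ∧ (Γ' i).FiniteIndex) ∧ Antitone Γ' ∧ ⨅ i, Γ' i = ⊥) ∧
      (∃ r : ℝ, 0 < r ∧
        Tendsto (fun i => ((genRank (Γ i) : ℝ) - 1) / (Γ i).index) atTop (𝓝 r)) ∧
      Tendsto (fun i => ((genRank (Γ' i) : ℝ) - 1) / (Γ' i).index) atTop (𝓝 0) ∧
      cost G = 1 ∧
      ∀ (α : Type) [Fintype α] (s : α → G), Subgroup.closure (Set.range s) = ⊤ →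
        l2b1 s - l2b0 G = 0 := by
  obtain ⟨Γ, a1, a2, a3, a4, c, a5⟩ := RG.chain_one
  obtain ⟨Γ', b1, b2, b3, b4, b5⟩ := RG.chain_two RG.closure_xy RG.yy_pow_ne Γ a3 a4
  have := RG.GG.fp'
  have : Infinite (RG.GG RG.xx RG.yy) := RG.Cen.infinite
  have h0 : ∀ Γ : ℕ → Subgroup (RG.GG RG.xx RG.yy), ⨅ i, Γ i = ⊥ → ∀ g, (∀ i, g ∈ Γ i) → g = 1 :=
    fun Γ h g hg => Subgroup.mem_bot.1 (h ▸ Subgroup.mem_iInf.2 hg)
  refine ⟨RG.GG RG.xx RG.yy, inferInstance, this, ?_, inferInstance, Γ, Γ',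
    ⟨fun i => ⟨a1 i, a2 i⟩, a3, a4⟩, ⟨fun i => ⟨b1 i, b2 i⟩, b3, b4⟩,
    RG.rg_pos Γ a3 (h0 Γ a4) a5, b5, RG.rg_zero Γ' b3 (h0 Γ' b4) b5⟩
  exact Group.residuallyFinite_iff_forall_finiteIndex.2 fun g hg => h0 Γ a4 g fun i => hg (Γ i)

end Pool.Agent.Results.MP_34a149_al.ChainDependent
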