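import Pool.Agent.Lib.MP_34a149_al.Main
import Pool.Agent.Lib.MP_34a149_al.Cost
import Pool.Agent.Lib.MP_34a149_al.Kaz


/-!
Rank gradient, first Betti number gradient over every field, cost minus one and first
`L²`-Betti number all agree for chains adapted to a tower of bi-orderable amenable quotients of a
member of the chain.
-/

namespace Pool.Agent.Results.MP_34a149_al.OrderableTower

open Pool.Agent.Lib.MP_34a149_al Filter Topology

theorem result (G : Type) [Group G] [Group.IsFinitelyPresented G]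
    (Γ : ℕ → Subgroup G) [∀ i, (Γ i).Normal] [∀ i, (Γ i).FiniteIndex] (hΓ : Antitone Γ)
    (hΓ1 : ⨅ i, Γ i = ⊥)
    (j : ℕ) (N : ℕ → Subgroup (Γ j)) [∀ c, (N c).Normal] (hN : Antitone N) (hN1 : ⨅ c, N c = ⊥)
    (hord : ∀ c, BiOrderable (Γ j ⧸ N c)) (hA : ∀ c, Amenable (Γ j ⧸ N c))
    (hsep : ∀ c, ⨅ i, (Γ i).subgroupOf (Γ j) ⊔ N c = N c) :
    ∃ l : ℝ, (∀ (F : Type) [Field F],
        Tendsto (fun i => ((b1 F (Γ i) : ℝ) - 1) / (Γ i).index) atTop (𝓝 l)) ∧
      (∀ (α : Type) [Fintype α] (s : α → G), Subgroup.closure (Set.range s) = ⊤ →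
        l2b1 s - l2b0 G = l) ∧
      cost G = ENNReal.ofReal (1 + l) ∧
      Tendsto (fun i => ((genRank (Γ i) : ℝ) - 1) / (Γ i).index) atTop (𝓝 l) := by
  have h0 : ∀ g, (∀ i, g ∈ Γ i) → g = 1 := fun g hg => by
    rw [← Subgroup.mem_bot, ← hΓ1]
    exact Subgroup.mem_iInf.2 hg
  have h1 : ∀ g, (∀ c, g ∈ N c) → g = 1 := fun g hg => by
    rw [← Subgroup.mem_bot, ← hN1]
    exact Subgroup.mem_iInf.2 hg
  have h2 : ∀ c g, (∀ i, g ∈ (Γ i).subgroupOf (Γ j) ⊔ N c) → g ∈ N c := fun c g hg => by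
    rw [← hsep c]
    exact Subgroup.mem_iInf.2 hg
  obtain ⟨l, a0, a1, a2⟩ := gradients ℝ Γ hΓ j N hN h1 hord hA h2
  have a3 : cost G ≤ ENNReal.ofReal (1 + l) := by
    refine ge_of_tendsto (ENNReal.tendsto_ofReal (a1.const_add 1)) ?_
    filter_upwards [a0] with i ⟨S, hS⟩
    obtain ⟨S', c1, c2⟩ := exists_genRank S hS
    rw [← c1]
    exact cost_le Γ h0 i S' c2
  have a4 : 0 ≤ 1 + l := by
    refine ge_of_tendsto' (a1.const_add 1) fun i => ?_
    have c1 : (1 : ℝ) ≤ (Γ i).index := by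
      exact_mod_cast Nat.pos_of_ne_zero Subgroup.FiniteIndex.index_ne_zero
    rw [← neg_le_iff_add_nonneg', le_div_iff₀ (by linarith)]
    linarith [(Nat.cast_nonneg _ : (0 : ℝ) ≤ genRank (Γ i))]
  refine ⟨l, fun F _ => ?_, fun α _ s hs => ?_, le_antisymm a3 ?_, a1⟩
  · obtain ⟨l', -, b1, b2⟩ := gradients F Γ hΓ j N hN h1 hord hA h2
    rwa [tendsto_nhds_unique a1 b1]
  · have c1 := kazhdan Γ hΓ h0 s hs a0 a2
    have c2 := (ENNReal.ofReal_le_ofReal_iff a4).1 ((gaboriau s hs).trans a3)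
    rw [l2b1_sub_l2b0 s hs]
    linarith
  · obtain ⟨n, φ, hφ, -⟩ := Group.IsFinitelyPresented.out (G := G)
    have hs : Subgroup.closure (Set.range fun a => φ (FreeGroup.of a)) = ⊤ := by
      rw [← FreeGroup.range_lift_eq_closure, ← MonoidHom.range_eq_top.2 hφ]
      congr 1
      ext a
      simp
    exact (ENNReal.ofReal_le_ofReal (kazhdan Γ hΓ h0 _ hs a0 a2)).trans (gaboriau _ hs)

end Pool.Agent.Results.MP_34a149_al.OrderableTower
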