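import Pool.Agent.Lib.MP_34a149_al.PG.Main

/-!
In characteristic `p`, the first Betti number gradient equals the first `L²`-Betti number along
every chain whose members lie deep in the derived `p`-series of small subgroups.
-/

namespace Pool.Agent.Results.MP_34a149_al.PGradient

open Pool.Agent.Lib.MP_34a149_al Pool.Agent.Lib.MP_34a149_al.PG Filter Topology

theorem result (G : Type) [Group G] [Group.IsFinitelyPresented G]
    (Γ : ℕ → Subgroup G) [∀ i, (Γ i).Normal] [∀ i, (Γ i).FiniteIndex] (hΓ : Antitone Γ)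
    (hΓ1 : ⨅ i, Γ i = ⊥) (p : ℕ) [Fact p.Prime] (F : Type) [Field F] [CharP F p]
    (hp : ∀ j n : ℕ, ∀ᶠ i in atTop, ∃ H : Subgroup G, H ≤ Γ j ∧ Γ i ≤ pDerived p H n ∧
      ∃ e : ℕ, (Γ i).relIndex H = p ^ e)
    (α : Type) [Fintype α] (s : α → G) (hs : Subgroup.closure (Set.range s) = ⊤) :
    Tendsto (fun i => ((b1 F (Γ i) : ℝ) - 1) / (Γ i).index) atTop (𝓝 (l2b1 s - l2b0 G)) :=
  limit G Γ hΓ (fun g hg => by
    rw [← Subgroup.mem_bot, ← hΓ1]
    exact Subgroup.mem_iInf.2 hg) p F hp α s hs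

end Pool.Agent.Results.MP_34a149_al.PGradient
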